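import Pool.Agent.L7h43.QU.Stm
import Pool.Agent.L7h65.NQ.Cev

set_option autoImplicit false

/-!
# Project QU, part CEV: the equation of the tube around the quintic
-/

namespace Pool.Agent.L7h65.QU

open MvPolynomial Pool.Agent.TH603.EL Pool.Agent.L7h43.QU
open Pool.Agent.TH603.EL.Lead Pool.Agent.TH603.EL.Scal1
open Pool.Agent.L7h52.NQ (vec mI th cst)
open Pool.Agent.L7h65.NQ (ph ph_C ph_X0 ph_X1 low_mono low_add low_all low_mI low_pow)

variable {F : Type} [Field F]

lemma qv_map {R S : Type*} [CommRing R] [CommRing S] (f : R →+* S) (a b c : R) :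
    f (qv a b c) = qv (f a) (f b) (f c) := by
  unfold qv
  simp only [map_sub, map_neg, map_mul, map_add, map_pow, map_ofNat]

lemma D5 (v : MvPolynomial (Fin 2) F) : dD (X 0) (X 1 * v) ^ 5 - C 1024 ∈ mI F := by
  have h0 : (X 0 : MvPolynomial (Fin 2) F) ∈ mI F := Ideal.subset_span (Or.inl rfl)
  have h1 : (X 1 : MvPolynomial (Fin 2) F) ∈ mI F := Ideal.subset_span (Or.inr rfl)
  rw [← Ideal.Quotient.eq]
  have e0 := Ideal.Quotient.eq_zero_iff_mem.2 h0
  have e1 := Ideal.Quotient.eq_zero_iff_mem.2 h1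
  unfold dD
  simp only [map_sub, map_mul, map_pow, map_one, map_ofNat, e0, e1]
  norm_num

/-- **CEV** -/
theorem s_CEV : S_CEV := by
  intro F _ _ τ s n v h0 h1 hs hn hS
  obtain ⟨-, herr⟩ := hS
  set w : MvPolynomial (Fin 2) F := X 1 * v with hw
  set D : MvPolynomial (Fin 2) F := dD (X 0) w with hD
  set P : MvPolynomial (Fin 2) F := (1 - X 0) * (1 - w) with hP
  set N : MvPolynomial (Fin 2) F := nN (X 0) w with hN
  set err : MvPolynomial (Fin 2) F := w * N - X 1 * uu (X 0) w ^ 6 with he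
  have hxy : ph F τ s (X 0) * ph F τ s (X 1) = tz F 1 0 0 + tz F s 0 1 := by
    rw [ph_X0, ph_X1, mul_add, tz_mul_tz, tz_mul_tz]
    congr 1
    · congr 1
      ring
    · congr 1
      ring
  have hincl : (incl (HahnSeries.single 1 1 : HK F) : HR F) = tz F 1 0 0 := by
    apply cf_ext
    intro a i j
    have h2 := cf_tz_mul (F := F) 1 1 a 0 0 i j
    rw [mul_one] at h2
    rw [cf_incl, h2]
    unfold cf
    rw [HahnSeries.coeff_one, HahnSeries.coeff_single]
    by_cases ha : a = 1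
    · have ha' : a - 1 = 0 := by rw [ha, sub_self]
      rw [if_pos ha', if_pos ha, sub_zero, sub_zero, AddMonoidAlgebra.one_def]
      have h : ((0 : ℤ × ℤ) = (i, j)) ↔ (i = 0 ∧ j = 0) := by
        rw [Prod.ext_iff]
        simp only [Prod.fst_zero, Prod.snd_zero]
        constructor <;> rintro ⟨h1, h2⟩ <;> exact ⟨h1.symm, h2.symm⟩
      simp [Finsupp.single_apply, h]
    · have ha' : a - 1 ≠ 0 := fun h => ha (by linarith)
      rw [if_neg ha', if_neg ha]
      split_ifs <;> rfl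
  have key : ev (tubeU τ s v) (Ct F) = tz F s 0 1 * ph F τ s (D ^ 5) +
      ph F τ s (X 0 * D ^ 2 * P ^ 3 * err) := by
    have e1 : ev (tubeU τ s v) (Qf (HK F)) = ph F τ s (X 0 * w * D ^ 2 * P ^ 3 * N) := by
      rw [hD, hP, hN, ← qv_tube, qv_map]
      unfold Qf
      rw [qv_map]
      unfold ev
      simp only [coe_eval₂Hom, eval₂_X]
      rfl
    have e2 : ev (tubeU τ s v) (C (HahnSeries.single 1 1) * X 0 ^ 5) =
        tz F 1 0 0 * ph F τ s (D ^ 5) := by
      rw [map_mul, map_pow, map_pow, ← hincl]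
      unfold ev
      simp only [coe_eval₂Hom, eval₂_X, eval₂_C]
      rfl
    have e4 : D ^ 3 = P ^ 3 * uu (X 0) w ^ 6 := by
      rw [hD, hP]
      exact dD_cube _ _
    have e3 : (X 0 * w * D ^ 2 * P ^ 3 * N : MvPolynomial (Fin 2) F) =
        X 0 * X 1 * D ^ 5 + X 0 * D ^ 2 * P ^ 3 * err := by
      have e5 : D ^ 5 = D ^ 2 * D ^ 3 := by ring
      rw [he, e5, e4]
      ring
    unfold Ct
    rw [map_sub, e1, e2, e3, map_add, map_mul, map_mul, hxy]
    ring
  have hA : Low (tz F s 0 1 * ph F τ s (D ^ 5)) s := by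
    have := lmul (Pool.Agent.L7h65.NQ.low_tz (F := F) s 0 1) (low_all τ s h0 h1 hs (D ^ 5))
    rwa [add_zero] at this
  have hB : Low (ph F τ s (X 0 * D ^ 2 * P ^ 3 * err)) (n * min τ (1 - τ)) :=
    low_pow τ s h0 h1 hs n _ (Ideal.mul_mem_left _ _ herr)
  refine ⟨?_, ?_⟩
  · rw [key]
    exact low_add hA (low_mono hB hn.le)
  · intro i j
    have hB0 : (ph F τ s (X 0 * D ^ 2 * P ^ 3 * err)).coeff s = 0 := hB s hn
    have e1 : cf (ev (tubeU τ s v) (Ct F)) s i j = cf (tz F s 0 1 * ph F τ s (D ^ 5)) s i j := by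
      unfold cf
      rw [key, HahnSeries.coeff_add, hB0, add_zero]
    have e2 : ph F τ s (D ^ 5) = ph F τ s (D ^ 5 - C 1024) + incl (cst F 1024) := by
      rw [map_sub, ph_C, sub_add_cancel]
    have e3 : (ph F τ s (D ^ 5 - C 1024)).coeff 0 = 0 :=
      low_mI τ s h0 h1 hs (D5 v) 0 (lt_min h0 (by linarith))
    rw [e1, cf_tz_mul, sub_self, sub_zero]
    have e4 : cf (ph F τ s (D ^ 5)) 0 i (j - 1) = cf (incl (cst F 1024)) 0 i (j - 1) := by
      unfold cf
      rw [e2, HahnSeries.coeff_add, e3, zero_add]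
    rw [e4, cf_incl]
    unfold cst
    rw [HahnSeries.C_apply, HahnSeries.coeff_single, if_pos rfl]
    by_cases h : i = 0 ∧ j = 1
    · rw [if_pos h, if_pos ⟨h.1, by rw [h.2, sub_self]⟩]
    · rw [if_neg h, if_neg]
      rintro ⟨h2, h3⟩
      exact h ⟨h2, by omega⟩

end Pool.Agent.L7h65.QU
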